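import Pool.Agent.Helper90.UN.Goals

/-!
PROJECT UN (MP_d3128a_ag), packet SUM: the rows of `S` counted by their lengths.
-/

set_option autoImplicit false

namespace Pool.Agent.Helper34.UN.SUM

open Pool.Agent.Helper90.UN Pool.Agent.Helper97.Nag

theorem t : S_SUM := by
  classical
  intro m S hS
  set I : Finset ℤ := S.image Prod.snd with hI
  set c : ℤ → ℕ := fun X => (S.filter fun q => q.2 = X).card with hc
  have hcm : ∀ X ∈ I, c X ≤ m + 1 := by
    intro X hX
    by_contra h
    have h1 : m + 2 ≤ c X := by omega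
    have h2 : X ∈ lnv S (m + 2) := by
      unfold lnv
      exact Finset.mem_filter.mpr ⟨hX, h1⟩
    rw [hS] at h2
    exact absurd h2 (Finset.notMem_empty X)
  have h1 : ∀ i : ℕ, (lnv S (i + 1)).card = ∑ X ∈ I, if i + 1 ≤ c X then 1 else 0 := by
    intro i
    unfold lnv
    exact Finset.card_filter _ _
  have h2 : ∀ X ∈ I, ∑ i ∈ Finset.range (m + 1), (if i + 1 ≤ c X then 1 else 0) = c X := by
    intro X hX
    rw [← Finset.card_filter]
    have h3 : (Finset.range (m + 1)).filter (fun i => i + 1 ≤ c X) = Finset.range (c X) := by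
      ext i
      have := hcm X hX
      simp only [Finset.mem_filter, Finset.mem_range]
      omega
    rw [h3, Finset.card_range]
  have h4 : S.card = ∑ X ∈ I, c X :=
    Finset.card_eq_sum_card_image Prod.snd S
  rw [Finset.sum_congr rfl fun i _ => h1 i, Finset.sum_comm, Finset.sum_congr rfl h2, h4]

end Pool.Agent.Helper34.UN.SUM
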